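import Pool.Agent.W772.FA.Defs

set_option autoImplicit false

namespace Pool.Agent.W395.FA.DEG

open MeasureTheory Set Metric Filter
open Pool.Agent.W772.FA
open Pool.Agent.H744R2.Falc (Fro addDist positive_step volume_distanceSet_pos)
open scoped ENNReal Topology Pointwise

lemma qa_nonneg {d : ℕ} (J : Finset (Fin d)) (z : E d) : 0 ≤ qa J z :=
  Finset.sum_nonneg fun _ _ => sq_nonneg _

lemma qb_nonneg {d : ℕ} (J : Finset (Fin d)) (z : E d) : 0 ≤ qb J z :=
  Finset.sum_nonneg fun _ _ => sq_nonneg _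

lemma continuous_qa {d : ℕ} (J : Finset (Fin d)) : Continuous (qa J) := by
  unfold qa
  fun_prop

lemma continuous_qb {d : ℕ} (J : Finset (Fin d)) : Continuous (qb J) := by
  unfold qb
  fun_prop

lemma qa_eq_zero {d : ℕ} (J : Finset (Fin d)) (z z' : E d) :
    qa J (z - z') = 0 ↔ ∀ i ∈ Jᶜ, z i = z' i := by
  unfold qa
  rw [Finset.sum_eq_zero_iff_of_nonneg (fun _ _ => sq_nonneg _)]
  constructor
  · intro h i hi
    have := h i hi
    rw [PiLp.sub_apply] at this
    exact sub_eq_zero.1 (pow_eq_zero_iff (two_ne_zero) |>.1 this)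
  · intro h i hi
    rw [PiLp.sub_apply, h i hi, sub_self]
    norm_num

lemma qb_eq_zero {d : ℕ} (J : Finset (Fin d)) (z z' : E d) :
    qb J (z - z') = 0 ↔ ∀ i ∈ J, z i = z' i := by
  unfold qb
  rw [Finset.sum_eq_zero_iff_of_nonneg (fun _ _ => sq_nonneg _)]
  constructor
  · intro h i hi
    have := h i hi
    rw [PiLp.sub_apply] at this
    exact sub_eq_zero.1 (pow_eq_zero_iff (two_ne_zero) |>.1 this)
  · intro h i hi
    rw [PiLp.sub_apply, h i hi, sub_self]
    norm_num

lemma dist_sq {d : ℕ} (J : Finset (Fin d)) (z z' : E d) :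
    dist z z' ^ 2 = qa J (z - z') + qb J (z - z') := by
  rw [EuclideanSpace.dist_eq, Real.sq_sqrt (Finset.sum_nonneg fun _ _ => sq_nonneg _)]
  unfold qa qb
  rw [add_comm, Finset.sum_add_sum_compl]
  apply Finset.sum_congr rfl
  intro i _
  rw [PiLp.sub_apply, Real.dist_eq, sq_abs]

lemma dist_stretch_sq {d : ℕ} (J : Finset (Fin d)) (lam : ℝ) (z z' : E d) :
    dist (stretch J lam z) (stretch J lam z') ^ 2 = qa J (z - z') + lam ^ 2 * qb J (z - z') := by
  rw [dist_sq J]
  congr 1
  · unfold qa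
    apply Finset.sum_congr rfl
    intro i hi
    rw [Finset.mem_compl] at hi
    simp only [PiLp.sub_apply, stretch, if_neg hi]
  · unfold qb
    rw [Finset.mul_sum]
    apply Finset.sum_congr rfl
    intro i hi
    simp only [PiLp.sub_apply, stretch, if_pos hi]
    ring

/-- scaling -/
lemma pos_of_scale {d : ℕ} (J : Finset (Fin d)) (lam : ℝ) (A S : Set (E d)) (hSA : S ⊆ A) (c : ℝ)
    (hc : 0 < c) (h : ∀ z ∈ S, ∀ z' ∈ S, dist (stretch J lam z) (stretch J lam z') = c * dist z z')
    (hv : 0 < volume (distanceSet S)) : 0 < volume (distanceSet (stretch J lam '' A)) := by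
  have h1 : c • distanceSet S ⊆ distanceSet (stretch J lam '' A) := by
    rintro _ ⟨r, ⟨x, hx, y, hy, rfl⟩, rfl⟩
    refine ⟨stretch J lam x, ⟨x, hSA hx, rfl⟩, stretch J lam y, ⟨y, hSA hy, rfl⟩, ?_⟩
    rw [h x hx y hy]
    rfl
  refine lt_of_lt_of_le ?_ (measure_mono h1)
  rw [Measure.addHaar_smul]
  apply ENNReal.mul_pos _ hv.ne'
  rw [Ne, ENNReal.ofReal_eq_zero, not_le]
  positivity

lemma fro_zero : Fro ({0} : Set ℝ) 0 := by
  refine ⟨Measure.dirac 0, inferInstance, ?_, 1, one_pos, ?_⟩
  · rw [Measure.dirac_apply' _ (measurableSet_singleton 0).compl]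
    simp
  · intro x r _
    rw [Real.rpow_zero, mul_one, ENNReal.ofReal_one]
    exact prob_le_one

/-- a measure on a set isometric to a subset of a coordinate subspace -/
lemma flat {d : ℕ} (K : Finset (Fin d)) (hK : K.card + 1 ≤ d) (S : Set (E d)) (hS : IsCompact S)
    (μ : Measure (E d)) (hμ : IsProbabilityMeasure μ) (hμS : μ Sᶜ = 0) (C₀ s : ℝ) (hC₀ : 0 < C₀)
    (hs : (d : ℝ) / 2 < s) (hF : FrM μ C₀ s)
    (h : ∀ z ∈ S, ∀ z' ∈ S, dist z z' ^ 2 = ∑ i ∈ K, (z i - z' i) ^ 2) :
    0 < volume (distanceSet S) := by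
  classical
  have hs0 : 0 ≤ s := le_trans (by positivity) hs.le
  let e : Fin K.card ≃ K := (Finset.equivFin K).symm
  let p : E d → EuclideanSpace ℝ (Fin K.card) := fun z => WithLp.toLp 2 fun j => z (e j)
  have hp : Continuous p := by
    apply (PiLp.continuous_toLp 2 _).comp
    fun_prop
  have hiso : ∀ z ∈ S, ∀ z' ∈ S, dist (p z) (p z') = dist z z' := by
    intro z hz z' hz'
    have h1 : dist (p z) (p z') ^ 2 = dist z z' ^ 2 := by
      rw [h z hz z' hz', EuclideanSpace.dist_eq,
        Real.sq_sqrt (Finset.sum_nonneg fun _ _ => sq_nonneg _)]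
      rw [← Finset.sum_coe_sort K (fun i => (z i - z' i) ^ 2), ← e.sum_comp]
      apply Finset.sum_congr rfl
      intro i _
      rw [Real.dist_eq, sq_abs]
    exact (pow_left_inj₀ dist_nonneg dist_nonneg two_ne_zero).1 h1
  have hFcomp : IsCompact (p '' S) := hS.image hp
  have hFro : Fro (p '' S) s := by
    refine ⟨μ.map p, Measure.isProbabilityMeasure_map hp.measurable.aemeasurable, ?_,
      C₀ * 2 ^ s, by positivity, ?_⟩
    · rw [Measure.map_apply hp.measurable hFcomp.measurableSet.compl]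
      refine measure_mono_null ?_ hμS
      intro z hz hzS
      exact hz ⟨z, hzS, rfl⟩
    · intro x r hr
      rw [Measure.map_apply hp.measurable measurableSet_closedBall]
      by_cases hne : ((p ⁻¹' closedBall x r) ∩ S).Nonempty
      · obtain ⟨z₀, hz₀, hz₀S⟩ := hne
        have h2 : p ⁻¹' closedBall x r ⊆ closedBall z₀ (2 * r) ∪ Sᶜ := by
          intro z hz
          by_cases hzS : z ∈ S
          · left
            rw [mem_closedBall, ← hiso z hzS z₀ hz₀S]
            have h3 : dist (p z) x ≤ r := hz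
            have h4 : dist (p z₀) x ≤ r := hz₀
            calc dist (p z) (p z₀) ≤ dist (p z) x + dist x (p z₀) := dist_triangle _ _ _
              _ ≤ r + r := by rw [dist_comm x]; exact add_le_add h3 h4
              _ = 2 * r := by ring
          · right; exact hzS
        calc μ (p ⁻¹' closedBall x r) ≤ μ (closedBall z₀ (2 * r) ∪ Sᶜ) := measure_mono h2
          _ ≤ μ (closedBall z₀ (2 * r)) + μ Sᶜ := measure_union_le _ _
          _ = μ (closedBall z₀ (2 * r)) := by rw [hμS, add_zero]
          _ ≤ ENNReal.ofReal (C₀ * (2 * r) ^ s) := hF z₀ (2 * r) (by positivity)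
          _ = ENNReal.ofReal (C₀ * 2 ^ s * r ^ s) := by
            rw [Real.mul_rpow (by norm_num) hr.le, mul_assoc]
      · have h2 : p ⁻¹' closedBall x r ⊆ Sᶜ := by
          intro z hz hzS
          exact hne ⟨z, hz, hzS⟩
        rw [measure_mono_null h2 hμS]
        exact zero_le
  have hpos := positive_step K.card {0} (p '' S) isCompact_singleton hFcomp 0 s le_rfl
    zero_le_one hs0 (by
      have : ((K.card : ℝ)) + 1 ≤ d := by exact_mod_cast hK
      linarith) fro_zero hFro
  refine volume_distanceSet_pos S (addDist {0} (p '' S)) ?_ hpos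
  rintro t ⟨u, hu, x, ⟨z, hz, rfl⟩, y, ⟨z', hz', rfl⟩, rfl⟩
  rw [mem_singleton_iff] at hu
  refine ⟨dist z z', ⟨z, hz, z', hz', rfl⟩, ?_⟩
  rw [hu, zero_add, hiso z hz z' hz']

/-- if any two points are related by one of two equivalence relations, one of these is total -/
lemma total {d : ℕ} (J : Finset (Fin d)) (S : Set (E d))
    (h : ∀ z ∈ S, ∀ z' ∈ S, qa J (z - z') = 0 ∨ qb J (z - z') = 0) :
    (∀ z ∈ S, ∀ z' ∈ S, qa J (z - z') = 0) ∨ (∀ z ∈ S, ∀ z' ∈ S, qb J (z - z') = 0) := by
  by_contra hcon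
  push Not at hcon
  obtain ⟨⟨z₁, hz₁, z₂, hz₂, h12⟩, ⟨z₃, hz₃, z₄, hz₄, h34⟩⟩ := hcon
  have hb12 : qb J (z₁ - z₂) = 0 := (h z₁ hz₁ z₂ hz₂).resolve_left h12
  rw [qb_eq_zero] at hb12
  -- every point agrees in `J` with `z₁`
  have key : ∀ z ∈ S, ∀ i ∈ J, z i = z₁ i := by
    intro z hz
    rcases h z hz z₁ hz₁ with h1 | h1
    · rcases h z hz z₂ hz₂ with h2 | h2
      · exfalso
        apply h12
        rw [qa_eq_zero] at h1 h2 ⊢
        intro i hi
        rw [← h1 i hi, h2 i hi]
      · rw [qb_eq_zero] at h2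
        intro i hi
        rw [h2 i hi, hb12 i hi]
    · exact (qb_eq_zero J z z₁).1 h1
  apply h34
  rw [qb_eq_zero]
  intro i hi
  rw [key z₃ hz₃ i hi, key z₄ hz₄ i hi]

theorem main : S_DEG := by
  intro d J hJ hJc A hA μ hμ hμA C₀ s hC₀ hs hF
  classical
  have hsA : μ.support ⊆ A := by
    apply Measure.support_subset_of_isClosed hA.isClosed
    rw [mem_ae_iff]
    exact hμA
  have hsS : IsCompact μ.support := hA.of_isClosed_subset Measure.isClosed_support hsA
  have hs0 : μ μ.supportᶜ = 0 := Measure.measure_compl_support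
  by_cases hab : ∀ z ∈ μ.support, ∀ z' ∈ μ.support, qa J (z - z') = 0 ∨ qb J (z - z') = 0
  · right
    intro lam hlam
    rcases total J _ hab with h1 | h1
    · -- differences only in `J`
      refine pos_of_scale J lam A μ.support hsA lam hlam ?_ ?_
      · intro z hz z' hz'
        have h2 : dist (stretch J lam z) (stretch J lam z') ^ 2 = (lam * dist z z') ^ 2 := by
          rw [dist_stretch_sq, mul_pow, dist_sq J z z', h1 z hz z' hz', zero_add, zero_add]
        exact (pow_left_inj₀ dist_nonneg (by positivity) two_ne_zero).1 h2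
      · refine flat J ?_ μ.support hsS μ hμ hs0 C₀ s hC₀ hs hF ?_
        · have h3 := Finset.card_add_card_compl J
          rw [Fintype.card_fin] at h3
          have h4 := hJc.card_pos
          omega
        · intro z hz z' hz'
          rw [dist_sq J, h1 z hz z' hz', zero_add]
          rfl
    · refine pos_of_scale J lam A μ.support hsA 1 one_pos ?_ ?_
      · intro z hz z' hz'
        have h2 : dist (stretch J lam z) (stretch J lam z') ^ 2 = (1 * dist z z') ^ 2 := by
          rw [dist_stretch_sq, one_mul, dist_sq J z z', h1 z hz z' hz', mul_zero]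
        exact (pow_left_inj₀ dist_nonneg (by positivity) two_ne_zero).1 h2
      · refine flat Jᶜ ?_ μ.support hsS μ hμ hs0 C₀ s hC₀ hs hF ?_
        · have h3 := Finset.card_add_card_compl J
          rw [Fintype.card_fin] at h3
          have h4 := hJ.card_pos
          omega
        · intro z hz z' hz'
          rw [dist_sq J, h1 z hz z' hz', add_zero]
          rfl
  · left
    push Not at hab
    obtain ⟨z₁, hz₁, z₂, hz₂, ha, hb⟩ := hab
    have ha' : 0 < qa J (z₁ - z₂) := lt_of_le_of_ne (qa_nonneg _ _) (Ne.symm ha)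
    have hb' : 0 < qb J (z₁ - z₂) := lt_of_le_of_ne (qb_nonneg _ _) (Ne.symm hb)
    obtain ⟨c, hc, hca, hcb⟩ : ∃ c : ℝ, 0 < c ∧ c < qa J (z₁ - z₂) ∧ c < qb J (z₁ - z₂) := by
      obtain ⟨c, h1, h2⟩ := exists_between (lt_min ha' hb')
      exact ⟨c, h1, lt_of_lt_of_le h2 (min_le_left _ _), lt_of_lt_of_le h2 (min_le_right _ _)⟩
    have hopen : {q : E d × E d | c < qa J (q.1 - q.2) ∧ c < qb J (q.1 - q.2)} ∈ 𝓝 (z₁, z₂) := by
      apply IsOpen.mem_nhds
      · apply IsOpen.inter
        · exact isOpen_lt continuous_const ((continuous_qa J).comp (continuous_fst.sub continuous_snd))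
        · exact isOpen_lt continuous_const ((continuous_qb J).comp (continuous_fst.sub continuous_snd))
      · exact ⟨hca, hcb⟩
    obtain ⟨ε, hε, hball⟩ := Metric.mem_nhds_iff.1 hopen
    refine ⟨c, closedBall z₁ (ε / 2), closedBall z₂ (ε / 2), hc, measurableSet_closedBall,
      measurableSet_closedBall, isBounded_closedBall, isBounded_closedBall, ?_, ?_, ?_⟩
    · exact (Measure.mem_support_iff_forall z₁).1 hz₁ _ (closedBall_mem_nhds z₁ (by positivity))
    · exact (Measure.mem_support_iff_forall z₂).1 hz₂ _ (closedBall_mem_nhds z₂ (by positivity))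
    · intro z hz z' hz'
      have h1 : (z, z') ∈ ball (z₁, z₂) ε := by
        rw [mem_ball, Prod.dist_eq]
        rw [mem_closedBall] at hz hz'
        exact max_lt (lt_of_le_of_lt hz (by linarith)) (lt_of_le_of_lt hz' (by linarith))
      have h2 := hball h1
      exact ⟨h2.1.le, h2.2.le⟩

end Pool.Agent.W395.FA.DEG
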